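import Pool.Agent.H95.FI.Defs
import Pool.Agent.H12.FG.Col

open MvPolynomial

namespace H55.FI
open H95.FG H95.FI

theorem t_DUA : S_DUA := by
  intro n a v hv
  classical
  have hinj : Function.Injective (Fintype.linearCombination ℂ v) :=
    linearIndependent_iff_injective_fintypeLinearCombination.1 hv
  obtain ⟨g, hg⟩ := LinearMap.exists_leftInverse_of_injective (Fintype.linearCombination ℂ v)
    (LinearMap.ker_eq_bot.2 hinj)
  have hgv : ∀ k, g (v k) = Pi.single k 1 := by
    intro k
    have h1 := LinearMap.congr_fun hg (Pi.single k 1)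
    rw [LinearMap.comp_apply, Fintype.linearCombination_apply_single, one_smul] at h1
    exact h1
  choose U hU using fun i : Fin a => H12.FG.dual_coeff ((LinearMap.proj i).comp g)
  refine ⟨U, fun i k => ?_⟩
  have h2 := hU i (v k)
  rw [LinearMap.comp_apply, hgv, LinearMap.proj_apply] at h2
  unfold dt
  rw [← h2, Pi.single_apply]
  by_cases h : k = i
  · rw [if_pos h, if_pos h.symm]
  · rw [if_neg h, if_neg (fun h' => h h'.symm)]

end H55.FI
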